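import Pool.Agent.Y884.SQ.Mom

/-!
SQ6 of project SQ (helper856), by helper884: twisted moments of `ffz` (`S_tb`, `S_tk`).
-/

set_option autoImplicit false

namespace Pool.Agent.Y884.SQ

open Finset
open Pool.Agent.H442R2.EHI
open Pool.Agent.Y856.Sq

/-- powers of the logarithm -/
theorem log_pow_le {x : ℕ} (j : ℕ) (C : ℝ)
    (hL : C * (j + 1).factorial ≤ Real.log x) (hL0 : 0 ≤ Real.log x) (hx : 1 ≤ x) :
    C * Real.log x ^ j ≤ x := by
  have hx0 : (0 : ℝ) < x := by exact_mod_cast hx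
  have h1 := Real.pow_div_factorial_le_exp (Real.log x) hL0 (j + 1)
  rw [Real.exp_log hx0] at h1
  have hf : (0 : ℝ) < ((j + 1).factorial : ℝ) := by exact_mod_cast Nat.factorial_pos _
  rw [div_le_iff₀ hf, pow_succ] at h1
  have h2 : Real.log x ^ j * (C * (j + 1).factorial) ≤ Real.log x ^ j * Real.log x :=
    mul_le_mul_of_nonneg_left hL (by positivity)
  have h3 : (C * Real.log x ^ j) * (j + 1).factorial ≤ x * (j + 1).factorial := by
    calc (C * Real.log x ^ j) * (j + 1).factorial = Real.log x ^ j * (C * (j + 1).factorial) := by ring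
      _ ≤ _ := h2.trans h1
  exact le_of_mul_le_mul_right h3 hf

/-- **S_tb** -/
theorem t_tb : S_tb := by
  intro m
  refine ⟨2 * m + 2 * 2 ^ (2 * m) + 16, fun E1 => ?_⟩
  obtain ⟨Y, hY⟩ : ∃ Y : ℝ, Y = max (Y0 E1) (3 ^ (2 * m) * ((2 * (m * E1) + 1).factorial : ℝ)) :=
    ⟨_, rfl⟩
  refine ⟨⌈Real.exp Y⌉₊, fun x hx Q K hQ hK a ha => ?_⟩
  have hLY : Y ≤ Real.log x := log_ge hx
  have hL1 : Y0 E1 ≤ Real.log x := by rw [hY] at hLY; exact (le_max_left _ _).trans hLY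
  have hL2 : 3 ^ (2 * m) * ((2 * (m * E1) + 1).factorial : ℝ) ≤ Real.log x := by
    rw [hY] at hLY; exact (le_max_right _ _).trans hLY
  have hy2 : 2 ≤ Real.log x := (two_le_Y0 E1).trans hL1
  have hx1 : 1 ≤ x := by
    rcases Nat.eq_zero_or_pos x with rfl | h
    · simp at hy2; linarith
    · exact h
  have hxr : (1 : ℝ) ≤ x := by exact_mod_cast hx1
  -- swap
  have h1 : ∑ k ∈ Icc 1 K, ∑ n ∈ (Icc (1 : ℤ) x).filter (fun n => (k : ℤ) ∣ n - a),
        ‖ffz x Q n‖ ^ m =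
      ∑ n ∈ Icc (1 : ℤ) x, ‖ffz x Q n‖ ^ m *
        ((((Icc 1 K).filter (fun k : ℕ => (k : ℤ) ∣ n - a)).card : ℕ) : ℝ) := by
    simp only [sum_filter]
    rw [sum_comm]
    refine sum_congr rfl fun n _ => ?_
    rw [← sum_filter, sum_const, nsmul_eq_mul]
    ring
  rw [h1, ← sum_filter_add_sum_filter_not (Icc (1 : ℤ) x) (fun n => n ≠ a)]
  have h2 : ∑ n ∈ (Icc (1 : ℤ) x).filter (fun n => n ≠ a), ‖ffz x Q n‖ ^ m *
        ((((Icc 1 K).filter (fun k : ℕ => (k : ℤ) ∣ n - a)).card : ℕ) : ℝ) ≤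
      x * Real.log x ^ (2 * m + 2 * 2 ^ (2 * m) + 15) := by
    refine le_trans (sum_le_sum fun n hn => ?_) (tw_le hL1 hQ m ha)
    rw [mem_filter] at hn
    apply mul_le_mul_of_nonneg_left _ (by positivity)
    have : (Icc 1 K).filter (fun k : ℕ => (k : ℤ) ∣ n - a) ⊆ (n - a).natAbs.divisors := by
      intro k hk
      rw [mem_filter] at hk
      rw [Nat.mem_divisors]
      exact ⟨Int.natCast_dvd.1 hk.2, by have := hn.2; omega⟩
    exact_mod_cast card_le_card this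
  have h3 : ∑ n ∈ (Icc (1 : ℤ) x).filter (fun n => ¬ n ≠ a), ‖ffz x Q n‖ ^ m *
        ((((Icc 1 K).filter (fun k : ℕ => (k : ℤ) ∣ n - a)).card : ℕ) : ℝ) ≤ x := by
    have h4 : (Icc (1 : ℤ) x).filter (fun n => ¬ n ≠ a) ⊆ {a} := by
      intro n hn
      rw [mem_filter] at hn
      rw [mem_singleton]
      exact not_not.1 hn.2
    refine (sum_le_sum_of_subset_of_nonneg h4 (fun _ _ _ => by positivity)).trans ?_
    rw [sum_singleton]
    have h5 : ((((Icc 1 K).filter (fun k : ℕ => (k : ℤ) ∣ a - a)).card : ℕ) : ℝ) ≤ K := by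
      have : ((Icc 1 K).filter (fun k : ℕ => (k : ℤ) ∣ a - a)).card ≤ (Icc 1 K).card :=
        card_le_card (filter_subset _ _)
      rw [Nat.card_Icc] at this
      exact_mod_cast (by omega : ((Icc 1 K).filter (fun k : ℕ => (k : ℤ) ∣ a - a)).card ≤ K)
    have h6 : ‖ffz x Q a‖ ^ m ≤ (3 * Real.log x ^ E1) ^ m := by
      apply pow_le_pow_left₀ (norm_nonneg _)
      refine (ffz_triv x Q a).trans ?_
      have : (1 : ℝ) ≤ Real.log x ^ E1 := one_le_pow₀ (by linarith)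
      linarith
    have h7 : ((3 * Real.log x ^ E1) ^ m) ^ 2 ≤ x := by
      have h8 := log_pow_le (x := x) (2 * (m * E1)) (3 ^ (2 * m)) hL2 (by linarith) hx1
      refine le_trans (le_of_eq ?_) h8
      rw [mul_pow, mul_pow, ← pow_mul, ← pow_mul, ← pow_mul]
      congr 2
      · ring
      · ring
    have h9 : ((K : ℝ)) ^ 2 ≤ x := by exact_mod_cast hK
    have h10 : (0 : ℝ) ≤ (3 * Real.log x ^ E1) ^ m := by positivity
    calc ‖ffz x Q a‖ ^ m * ((((Icc 1 K).filter (fun k : ℕ => (k : ℤ) ∣ a - a)).card : ℕ) : ℝ)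
        ≤ (3 * Real.log x ^ E1) ^ m * K := mul_le_mul h6 h5 (by positivity) h10
      _ ≤ x := by nlinarith [sq_nonneg ((3 * Real.log x ^ E1) ^ m - K)]
  have h11 : (1 : ℝ) ≤ Real.log x ^ (2 * m + 2 * 2 ^ (2 * m) + 15) := one_le_pow₀ (by linarith)
  have h12 : Real.log x ^ (2 * m + 2 * 2 ^ (2 * m) + 16) =
      Real.log x ^ (2 * m + 2 * 2 ^ (2 * m) + 15) * Real.log x := pow_succ _ _
  rw [h12]
  have h13 : (x : ℝ) * (Real.log x ^ (2 * m + 2 * 2 ^ (2 * m) + 15) * 2) ≤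
      x * (Real.log x ^ (2 * m + 2 * 2 ^ (2 * m) + 15) * Real.log x) :=
    mul_le_mul_of_nonneg_left (mul_le_mul_of_nonneg_left hy2 (by linarith)) (by linarith)
  have h14 : (x : ℝ) * 1 ≤ x * Real.log x ^ (2 * m + 2 * 2 ^ (2 * m) + 15) :=
    mul_le_mul_of_nonneg_left h11 (by linarith)
  linarith

/-- **S_tk** -/
theorem t_tk : S_tk := by
  classical
  refine ⟨2 * 2 + 2 * 2 ^ (2 * 2) + 15, fun E1 => ⟨⌈Real.exp (Y0 E1)⌉₊, ?_⟩⟩
  intro x hx Q D K1 hQ a ha σ hσ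
  have hL1 : Y0 E1 ≤ Real.log x := log_ge hx
  have hy2 : 2 ≤ Real.log x := (two_le_Y0 E1).trans hL1
  obtain ⟨P, hP⟩ : ∃ P : Finset (ℕ × ℕ), P = (Ioc D (2 * D)) ×ˢ (Icc 1 K1) := ⟨_, rfl⟩
  obtain ⟨φ, hφ⟩ : ∃ φ : ℕ × ℕ → ℤ, φ = fun z => a + σ * z.1 * z.2 := ⟨_, rfl⟩
  have h1 : ∑ d ∈ Ioc D (2 * D), ∑ k ∈ Icc 1 K1, ‖ffz x Q (a + σ * d * k)‖ =
      ∑ z ∈ P, ‖ffz x Q (φ z)‖ := by
    rw [hP, sum_product, hφ]
  have hcard : (P.card : ℝ) = D * K1 := by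
    rw [hP, card_product, Nat.card_Ioc, Nat.card_Icc]
    push_cast
    congr 1
    · have : 2 * D - D = D := by omega
      rw [this]
  have hzpos : ∀ z ∈ P, 1 ≤ z.1 ∧ 1 ≤ z.2 := by
    intro z hz
    rw [hP, mem_product, mem_Ioc, mem_Icc] at hz
    omega
  have hne : ∀ z ∈ P, (φ z - a).natAbs = z.1 * z.2 := by
    intro z _
    rw [hφ]
    simp only
    have : a + σ * z.1 * z.2 - a = σ * ((z.1 * z.2 : ℕ) : ℤ) := by push_cast; ring
    rw [this, Int.natAbs_mul, Int.natAbs_natCast]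
    rcases hσ with h | h <;> rw [h] <;> simp
  have h2 : (∑ z ∈ P, ‖ffz x Q (φ z)‖) ^ 2 ≤ P.card * ∑ z ∈ P, ‖ffz x Q (φ z)‖ ^ 2 :=
    sq_sum_le_card_mul_sum_sq
  obtain ⟨N, hN⟩ : ∃ N : Finset ℤ, N = (Icc (1 : ℤ) x).filter (fun n => n ≠ a) := ⟨_, rfl⟩
  have h3 : ∑ z ∈ P, ‖ffz x Q (φ z)‖ ^ 2 = ∑ z ∈ P.filter (fun z => φ z ∈ N), ‖ffz x Q (φ z)‖ ^ 2 := by
    symm
    apply sum_filter_of_ne
    intro z hz hne0
    rw [hN, mem_filter, mem_Icc]
    have h4 : 1 ≤ φ z ∧ φ z ≤ x := by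
      by_contra hcon
      apply hne0
      rw [ffz_zero hcon]
      simp
    refine ⟨h4, ?_⟩
    intro h5
    have h6 := hne z hz
    rw [h5, sub_self, Int.natAbs_zero] at h6
    have h7 := hzpos z hz
    have : 0 < z.1 * z.2 := Nat.mul_pos h7.1 h7.2
    omega
  have h4 : ∑ z ∈ P.filter (fun z => φ z ∈ N), ‖ffz x Q (φ z)‖ ^ 2 =
      ∑ n ∈ N, ∑ z ∈ (P.filter (fun z => φ z ∈ N)).filter (fun z => φ z = n), ‖ffz x Q (φ z)‖ ^ 2 := by
    rw [sum_fiberwise_of_maps_to]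
    intro z hz
    exact (mem_filter.1 hz).2
  have h5 : ∀ n ∈ N, ∑ z ∈ (P.filter (fun z => φ z ∈ N)).filter (fun z => φ z = n),
      ‖ffz x Q (φ z)‖ ^ 2 ≤ ‖ffz x Q n‖ ^ 2 * (((n - a).natAbs.divisors.card : ℕ) : ℝ) := by
    intro n hn
    have h6 : ∑ z ∈ (P.filter (fun z => φ z ∈ N)).filter (fun z => φ z = n),
        ‖ffz x Q (φ z)‖ ^ 2 =
        (((P.filter (fun z => φ z ∈ N)).filter (fun z => φ z = n)).card : ℝ) * ‖ffz x Q n‖ ^ 2 := by
      rw [← nsmul_eq_mul, ← sum_const]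
      refine sum_congr rfl fun z hz => ?_
      rw [(mem_filter.1 hz).2]
    rw [h6, mul_comm]
    apply mul_le_mul_of_nonneg_left _ (by positivity)
    have h7 : ((P.filter (fun z => φ z ∈ N)).filter (fun z => φ z = n)).card ≤
        (n - a).natAbs.divisors.card := by
      apply card_le_card_of_injOn (fun z => z.1)
      · intro z hz
        have hz' := mem_filter.1 (mem_coe.1 hz)
        have hzP := (mem_filter.1 hz'.1).1
        rw [mem_coe, Nat.mem_divisors, ← hz'.2, hne z hzP]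
        have h8 := hzpos z hzP
        exact ⟨dvd_mul_right _ _, (Nat.mul_pos h8.1 h8.2).ne'⟩
      · intro z hz w hw hzw
        have hz' := mem_filter.1 (mem_coe.1 hz)
        have hzP := (mem_filter.1 hz'.1).1
        have hw' := mem_filter.1 (mem_coe.1 hw)
        have hwP := (mem_filter.1 hw'.1).1
        have h8 := hzpos z hzP
        have e1 := hne z hzP
        have e2 := hne w hwP
        rw [hz'.2] at e1
        rw [hw'.2, e1] at e2
        simp only at hzw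
        rw [← hzw] at e2
        have e3 : z.2 = w.2 := Nat.eq_of_mul_eq_mul_left h8.1 e2
        exact Prod.ext hzw e3
    exact_mod_cast h7
  have h6 : ∑ z ∈ P, ‖ffz x Q (φ z)‖ ^ 2 ≤ x * Real.log x ^ (2 * 2 + 2 * 2 ^ (2 * 2) + 15) := by
    rw [h3, h4]
    refine (sum_le_sum h5).trans ?_
    rw [hN]
    exact tw_le hL1 hQ 2 ha
  rw [h1]
  obtain ⟨c, hc⟩ : ∃ c : ℕ, c = 2 * 2 + 2 * 2 ^ (2 * 2) + 15 := ⟨_, rfl⟩
  rw [← hc] at h6 ⊢
  have hLc : (1 : ℝ) ≤ Real.log x ^ c := one_le_pow₀ (by linarith)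
  have hDK : (0 : ℝ) ≤ (D : ℝ) * K1 := by positivity
  have hx0 : (0 : ℝ) ≤ x := Nat.cast_nonneg _
  apply le_of_sq_le_sq _ (by positivity)
  rw [mul_pow, mul_pow, Real.sq_sqrt hDK, Real.sq_sqrt hx0]
  refine h2.trans ?_
  rw [hcard]
  calc (D : ℝ) * K1 * ∑ z ∈ P, ‖ffz x Q (φ z)‖ ^ 2 ≤ (D : ℝ) * K1 * (x * Real.log x ^ c) :=
        mul_le_mul_of_nonneg_left h6 hDK
    _ ≤ (D : ℝ) * K1 * x * (Real.log x ^ c) ^ 2 := by
        have h7 : Real.log x ^ c ≤ (Real.log x ^ c) ^ 2 := by nlinarith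
        have h8 := mul_le_mul_of_nonneg_left h7 (mul_nonneg hDK hx0)
        linarith

end Pool.Agent.Y884.SQ
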