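import Pool.Agent.Y856.Sq.Stm
import Pool.Agent.H442R2.EHI.Ram
import Pool.Agent.H442R2.EHI.Model
import Pool.Agent.H442R2.EHI.Bounds
import Pool.Agent.TH935.LP.L1

/-!
SQ6 of project SQ (helper856), by helper884: moments of `ffz`, with exponents independent of `E1`.
-/

set_option autoImplicit false

namespace Pool.Agent.Y884.SQ

open Finset
open Pool.Agent.H442R2.EHI
open Pool.Agent.Y856.Sq

theorem sum_mult_le {Q d : ℕ} (hd : 1 ≤ d) (F : ℕ → ℝ) (hF : ∀ e, 0 ≤ F e) :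
    ∑ q ∈ (Icc 1 Q).filter (fun q => d ∣ q), F (q / d) ≤ ∑ e ∈ Icc 1 Q, F e := by
  classical
  have hinj : Set.InjOn (fun q : ℕ => q / d)
      (((Icc 1 Q).filter (fun q => d ∣ q) : Finset ℕ) : Set ℕ) := by
    intro q hq q' hq' h
    simp only [coe_filter, mem_Icc, Set.mem_setOf_eq] at hq hq'
    simp only at h
    rw [← Nat.div_mul_cancel hq.2, ← Nat.div_mul_cancel hq'.2, h]
  have h1 := sum_image (f := F) hinj
  rw [← h1]
  refine sum_le_sum_of_subset_of_nonneg ?_ (fun e _ _ => hF e)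
  intro e he
  rw [mem_image] at he
  obtain ⟨q, hq, rfl⟩ := he
  rw [mem_filter, mem_Icc] at hq
  rw [mem_Icc]
  exact ⟨Nat.div_pos (Nat.le_of_dvd (by omega) hq.2) hd, (Nat.div_le_self _ _).trans hq.1.2⟩

theorem term_le {Q q n : ℕ} (hn : 1 ≤ n) (hq1 : 1 ≤ q) (hqQ : q ≤ Q) :
    ‖(((ArithmeticFunction.moebius q : ℤ) : ℂ) / (Nat.totient q : ℂ)) * cq q n‖ ≤
      ∑ d ∈ n.divisors.filter (fun d => d ∣ q),
        2 * (1 + Real.log Q) * (1 / (Nat.totient (q / d) : ℝ)) := by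
  have hQ' : (1 : ℝ) ≤ Q := by exact_mod_cast (hq1.trans hqQ)
  have hlog : 0 ≤ Real.log Q := Real.log_nonneg hQ'
  by_cases hμ : ArithmeticFunction.moebius q = 0
  · rw [hμ]
    simp only [Int.cast_zero, zero_div, zero_mul, norm_zero]
    exact sum_nonneg (fun _ _ => by positivity)
  have hsq : Squarefree q := ArithmeticFunction.moebius_ne_zero_iff_squarefree.1 hμ
  have hc : ‖cq q n‖ ≤ ∑ d ∈ q.divisors.filter (fun d : ℕ => (d : ℤ) ∣ (n : ℤ)), (d : ℝ) := by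
    rw [cq_eq]
    exact H336V.raman q hq1 n
  have hφ : 0 < (Nat.totient q : ℝ) := by exact_mod_cast Nat.totient_pos.mpr hq1
  have hm : |((ArithmeticFunction.moebius q : ℤ) : ℝ)| ≤ 1 := by
    exact_mod_cast ArithmeticFunction.abs_moebius_le_one
  rw [norm_mul, norm_div, Complex.norm_intCast, Complex.norm_natCast]
  calc |((ArithmeticFunction.moebius q : ℤ) : ℝ)| / (Nat.totient q : ℝ) * ‖cq q n‖
      ≤ 1 / (Nat.totient q : ℝ) *
        ∑ d ∈ q.divisors.filter (fun d : ℕ => (d : ℤ) ∣ (n : ℤ)), (d : ℝ) := by gcongr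
    _ = ∑ d ∈ n.divisors.filter (fun d => d ∣ q), 1 / (Nat.totient q : ℝ) * d := by
        rw [mul_sum]
        apply sum_congr _ (fun _ _ => rfl)
        ext d
        simp only [mem_filter, Nat.mem_divisors, Int.natCast_dvd_natCast]
        constructor
        · rintro ⟨⟨h1, _⟩, h3⟩
          exact ⟨⟨h3, by omega⟩, h1⟩
        · rintro ⟨⟨h1, _⟩, h3⟩
          exact ⟨⟨h3, by omega⟩, h1⟩
    _ ≤ _ := by
        refine sum_le_sum fun d hd => ?_
        rw [mem_filter, Nat.mem_divisors] at hd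
        obtain ⟨e, rfl⟩ := hd.2
        have hd0 : 0 < d := Nat.pos_of_ne_zero (by rintro rfl; simp at hq1)
        have he0 : 0 < e := Nat.pos_of_ne_zero (by rintro rfl; simp at hq1)
        rw [Nat.mul_div_cancel_left _ hd0]
        have hcop : Nat.Coprime d e := Nat.coprime_of_squarefree_mul hsq
        rw [Nat.totient_mul hcop]
        have htl := Mdl.tot_lower d hd0
        have hφd : 0 < (Nat.totient d : ℝ) := by exact_mod_cast Nat.totient_pos.mpr hd0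
        have hφe : 0 < (Nat.totient e : ℝ) := by exact_mod_cast Nat.totient_pos.mpr he0
        have hdQ : (d : ℝ) ≤ Q := by
          have : d ≤ Q := (Nat.le_mul_of_pos_right d he0).trans hqQ
          exact_mod_cast this
        have hdr : (0 : ℝ) < d := by exact_mod_cast hd0
        have hlogd : Real.log d ≤ Real.log Q := Real.log_le_log hdr hdQ
        have h1 : (d : ℝ) / Nat.totient d ≤ 2 * (1 + Real.log Q) := by
          rw [div_le_iff₀ hφd]
          refine htl.trans ?_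
          apply mul_le_mul_of_nonneg_right _ hφd.le
          linarith
        have h2 : 1 / ((d.totient * e.totient : ℕ) : ℝ) * (d : ℝ) =
            (d : ℝ) / Nat.totient d * (1 / (Nat.totient e : ℝ)) := by
          push_cast
          field_simp
        rw [h2]
        exact mul_le_mul_of_nonneg_right h1 (by positivity)

theorem gg_le {Q n : ℕ} (hn : 1 ≤ n) :
    ‖gg Q n‖ ≤ 4 * (1 + Real.log Q) ^ 3 * n.divisors.card := by
  rcases Nat.eq_zero_or_pos Q with rfl | hQ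
  · have : gg 0 n = 0 := by simp [gg]
    rw [this, norm_zero]
    simp
  have hQ' : (1 : ℝ) ≤ Q := by exact_mod_cast hQ
  have hlog : 0 ≤ Real.log Q := Real.log_nonneg hQ'
  unfold gg
  refine (norm_sum_le _ _).trans ?_
  refine (sum_le_sum (fun q hq => term_le hn (mem_Icc.1 hq).1 (mem_Icc.1 hq).2)).trans ?_
  have h1 : ∑ q ∈ Icc 1 Q, ∑ d ∈ n.divisors.filter (fun d => d ∣ q),
        2 * (1 + Real.log Q) * (1 / (Nat.totient (q / d) : ℝ)) =
      ∑ d ∈ n.divisors, ∑ q ∈ (Icc 1 Q).filter (fun q => d ∣ q),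
        2 * (1 + Real.log Q) * (1 / (Nat.totient (q / d) : ℝ)) := by
    simp only [sum_filter]
    rw [sum_comm]
  rw [h1]
  have h2 : ∀ d ∈ n.divisors, ∑ q ∈ (Icc 1 Q).filter (fun q => d ∣ q),
        2 * (1 + Real.log Q) * (1 / (Nat.totient (q / d) : ℝ)) ≤ 4 * (1 + Real.log Q) ^ 3 := by
    intro d hd
    have hd0 : 1 ≤ d := Nat.pos_of_mem_divisors hd
    have h3 := sum_mult_le (Q := Q) hd0 (fun e => 2 * (1 + Real.log Q) * (1 / (Nat.totient e : ℝ)))
      (fun e => by positivity)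
    refine h3.trans ?_
    rw [← mul_sum]
    have h4 := Bd.sum_inv_tot Q hQ
    calc 2 * (1 + Real.log Q) * ∑ e ∈ Icc 1 Q, 1 / (Nat.totient e : ℝ)
        ≤ 2 * (1 + Real.log Q) * (2 * (1 + Real.log Q) ^ 2) :=
          mul_le_mul_of_nonneg_left h4 (by positivity)
      _ = _ := by ring
  refine (sum_le_sum h2).trans (le_of_eq ?_)
  rw [sum_const, nsmul_eq_mul]
  ring

theorem gg_triv (Q n : ℕ) : ‖gg Q n‖ ≤ Q := by
  unfold gg
  refine (norm_sum_le _ _).trans ?_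
  have h : ∀ q ∈ Icc 1 Q, ‖(((ArithmeticFunction.moebius q : ℤ) : ℂ) / (Nat.totient q : ℂ)) *
      cq q n‖ ≤ 1 := by
    intro q hq
    have hφ : 0 < (Nat.totient q : ℝ) := by exact_mod_cast Nat.totient_pos.mpr (mem_Icc.1 hq).1
    have hm : |((ArithmeticFunction.moebius q : ℤ) : ℝ)| ≤ 1 := by
      exact_mod_cast ArithmeticFunction.abs_moebius_le_one
    rw [norm_mul, norm_div, Complex.norm_intCast, Complex.norm_natCast]
    calc |((ArithmeticFunction.moebius q : ℤ) : ℝ)| / (Nat.totient q : ℝ) * ‖cq q n‖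
        ≤ 1 / (Nat.totient q : ℝ) * (Nat.totient q : ℝ) := by
          gcongr
          exact cq_norm q n
      _ = 1 := by field_simp
  refine (sum_le_sum h).trans (le_of_eq ?_)
  simp

theorem ff_le {x Q n : ℕ} : ‖ff x Q n‖ ≤ 1 + 2 * ‖gg Q n‖ := by
  have h0 := norm_nonneg (gg Q n)
  unfold ff
  split_ifs with h1 h2
  all_goals try (rw [norm_zero]; linarith)
  all_goals
    have hn2 : (2 : ℝ) ≤ n := by exact_mod_cast h1.1
    have hlog : 1 / 2 ≤ Real.log n := by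
      have := Real.log_two_gt_d9
      have := Real.log_le_log (by norm_num) hn2
      linarith
    have h3 : ‖gg Q n / (Real.log n : ℂ)‖ ≤ 2 * ‖gg Q n‖ := by
      rw [norm_div, Complex.norm_real, Real.norm_eq_abs, abs_of_pos (by linarith),
        div_le_iff₀ (by linarith)]
      nlinarith
    refine (norm_sub_le _ _).trans ?_
    simp only [norm_one, norm_zero]
    linarith

theorem ffz_zero {x Q : ℕ} {m : ℤ} (h : ¬ (1 ≤ m ∧ m ≤ x)) : ffz x Q m = 0 := by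
  unfold ffz
  split_ifs with h1
  · apply ff_zero_of_gt
    push Not at h
    have := h h1
    omega
  · rfl

theorem ffz_triv (x Q : ℕ) (m : ℤ) : ‖ffz x Q m‖ ≤ 1 + 2 * (Q : ℝ) := by
  unfold ffz
  split_ifs
  · have h1 := ff_le (x := x) (Q := Q) (n := m.toNat)
    have h2 := gg_triv Q m.toNat
    linarith
  · rw [norm_zero]
    positivity

/-- the lower bound for `log x` -/
noncomputable def Y0 (E1 : ℕ) : ℝ := max 2 ((9 * (1 + 6 * (E1 : ℝ)) ^ 3) ^ 2)

theorem two_le_Y0 (E1 : ℕ) : 2 ≤ Y0 E1 := le_max_left _ _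

theorem log_cube {E1 : ℕ} {y : ℝ} (hy : Y0 E1 ≤ y) : 9 * (1 + E1 * Real.log y) ^ 3 ≤ y := by
  have hy2 : 2 ≤ y := (le_max_left _ _).trans hy
  have hy3 : (9 * (1 + 6 * (E1 : ℝ)) ^ 3) ^ 2 ≤ y := (le_max_right _ _).trans hy
  have hy0 : 0 < y := by linarith
  obtain ⟨z, hz⟩ : ∃ z : ℝ, z = y ^ (1 / 6 : ℝ) := ⟨_, rfl⟩
  have hz1 : 1 ≤ z := by rw [hz]; exact Real.one_le_rpow (by linarith) (by norm_num)
  have hz6 : (z ^ 3) ^ 2 = y := by
    rw [← pow_mul, hz, ← Real.rpow_natCast, ← Real.rpow_mul hy0.le]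
    norm_num
  have h1 : Real.log y ≤ 6 * z := by
    have := Real.log_le_rpow_div hy0.le (show (0 : ℝ) < 1 / 6 by norm_num)
    rw [← hz] at this
    linarith
  have hlog0 : 0 ≤ Real.log y := Real.log_nonneg (by linarith)
  have hE : (0 : ℝ) ≤ E1 := Nat.cast_nonneg _
  have h2 : 1 + E1 * Real.log y ≤ (1 + 6 * E1) * z := by nlinarith
  have h3 : (1 + E1 * Real.log y) ^ 3 ≤ ((1 + 6 * E1) * z) ^ 3 :=
    pow_le_pow_left₀ (by positivity) h2 3
  have h4 : 9 * (1 + 6 * (E1 : ℝ)) ^ 3 ≤ z ^ 3 := by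
    apply le_of_sq_le_sq _ (by positivity)
    rw [hz6]
    exact hy3
  calc 9 * (1 + E1 * Real.log y) ^ 3 ≤ 9 * ((1 + 6 * E1) * z) ^ 3 := by linarith
    _ = 9 * (1 + 6 * (E1 : ℝ)) ^ 3 * z ^ 3 := by ring
    _ ≤ z ^ 3 * z ^ 3 := mul_le_mul_of_nonneg_right h4 (by positivity)
    _ = y := by rw [← hz6]; ring

/-- the pointwise bound -/
theorem ffz_le {E1 x Q : ℕ} (hx : Y0 E1 ≤ Real.log x) (hQ : (Q : ℝ) ≤ Real.log x ^ E1) {n : ℤ}
    (hn : 1 ≤ n) : ‖ffz x Q n‖ ≤ Real.log x * n.toNat.divisors.card := by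
  have hy2 : 2 ≤ Real.log x := (le_max_left _ _).trans hx
  have hn1 : 1 ≤ n.toNat := by omega
  have hcard : (1 : ℝ) ≤ n.toNat.divisors.card := by
    have : 0 < n.toNat.divisors.card := card_pos.mpr (Nat.nonempty_divisors.mpr (by omega))
    exact_mod_cast this
  have hloglog : 0 ≤ Real.log (Real.log x) := Real.log_nonneg (by linarith)
  have hlQ : 0 ≤ Real.log Q := Real.log_natCast_nonneg Q
  have h1 : 1 + Real.log Q ≤ 1 + E1 * Real.log (Real.log x) := by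
    rcases Nat.eq_zero_or_pos Q with rfl | hQ0
    · simp only [Nat.cast_zero, Real.log_zero]
      have : 0 ≤ (E1 : ℝ) * Real.log (Real.log x) := by positivity
      linarith
    · have hQ0' : (0 : ℝ) < Q := by exact_mod_cast hQ0
      have := Real.log_le_log hQ0' hQ
      rw [Real.log_pow] at this
      linarith
  have h2 : 9 * (1 + Real.log Q) ^ 3 ≤ Real.log x := by
    have h3 := log_cube hx
    have h4 : (1 + Real.log Q) ^ 3 ≤ (1 + E1 * Real.log (Real.log x)) ^ 3 :=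
      pow_le_pow_left₀ (by positivity) h1 3
    linarith
  have h5 : (1 : ℝ) ≤ (1 + Real.log Q) ^ 3 := one_le_pow₀ (by linarith)
  have h6 : ‖ffz x Q n‖ ≤ 9 * (1 + Real.log Q) ^ 3 * n.toNat.divisors.card := by
    unfold ffz
    rw [if_pos hn]
    have h7 := ff_le (x := x) (Q := Q) (n := n.toNat)
    have h8 := gg_le (Q := Q) hn1
    have h9 : (1 : ℝ) ≤ (1 + Real.log Q) ^ 3 * n.toNat.divisors.card := one_le_mul_of_one_le_of_one_le h5 hcard
    nlinarith
  exact h6.trans (mul_le_mul_of_nonneg_right h2 (by linarith))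

theorem sum_int (g : ℕ → ℝ) (x : ℕ) :
    ∑ n ∈ Icc (1 : ℤ) x, g n.toNat = ∑ n ∈ Icc 1 x, g n := by
  symm
  apply sum_nbij' (fun n : ℕ => (n : ℤ)) (fun n : ℤ => n.toNat)
  · intro n hn
    rw [mem_Icc] at hn ⊢
    omega
  · intro n hn
    rw [mem_Icc] at hn ⊢
    omega
  · intro n _
    simp
  · intro n hn
    rw [mem_Icc] at hn
    exact Int.toNat_of_nonneg (by omega)
  · intro n _
    simp

/-- all moments -/
theorem mom_le {E1 x Q : ℕ} (hx : Y0 E1 ≤ Real.log x) (hQ : (Q : ℝ) ≤ Real.log x ^ E1) (m : ℕ) :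
    mom (ffz x Q) x m ≤ x * Real.log x ^ (m + 2 * 2 ^ m) := by
  have hy2 : 2 ≤ Real.log x := (le_max_left _ _).trans hx
  obtain ⟨L, hL⟩ : ∃ L, L = Real.log x := ⟨_, rfl⟩
  rw [← hL] at hy2
  unfold mom
  have h1 : ∀ n ∈ Icc (1 : ℤ) x, ‖ffz x Q n‖ ^ m ≤ L ^ m * (n.toNat.divisors.card : ℝ) ^ m := by
    intro n hn
    rw [← mul_pow, hL]
    exact pow_le_pow_left₀ (norm_nonneg _) (ffz_le hx hQ (mem_Icc.1 hn).1) m
  refine (sum_le_sum h1).trans ?_
  rw [← mul_sum, sum_int (fun n => (n.divisors.card : ℝ) ^ m)]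
  have h2 := Pool.Agent.TH935.LD.tau_pow_sum m x
  rw [← hL] at h2 ⊢
  have h3 : (1 + L) ^ (2 ^ m) ≤ L ^ (2 * 2 ^ m) := by
    rw [pow_mul]
    apply pow_le_pow_left₀ (by linarith)
    nlinarith
  calc L ^ m * ∑ n ∈ Icc 1 x, (n.divisors.card : ℝ) ^ m
      ≤ L ^ m * (x * (1 + L) ^ (2 ^ m)) := mul_le_mul_of_nonneg_left h2 (by positivity)
    _ ≤ L ^ m * (x * L ^ (2 * 2 ^ m)) := by gcongr
    _ = x * L ^ (m + 2 * 2 ^ m) := by rw [pow_add]; ring

/-- `log x ≥ Y` for `x ≥ ⌈exp Y⌉` -/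
theorem log_ge {Y : ℝ} {x : ℕ} (hx : ⌈Real.exp Y⌉₊ ≤ x) : Y ≤ Real.log x := by
  have h1 : Real.exp Y ≤ x := (Nat.le_ceil _).trans (by exact_mod_cast hx)
  rwa [Real.le_log_iff_exp_le (lt_of_lt_of_le (Real.exp_pos _) h1)]

/-- **S_mom** -/
theorem t_mom : S_mom := by
  intro m
  refine ⟨m + 2 * 2 ^ m, fun E1 => ⟨⌈Real.exp (Y0 E1)⌉₊, fun x hx Q hQ => ?_⟩⟩
  exact mom_le (log_ge hx) hQ m

theorem shift_sum (g : ℕ → ℝ) (hg : ∀ t, 0 ≤ g t) {x : ℕ} {a : ℤ} (ha : |a| ≤ 4 * x) :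
    ∑ n ∈ (Icc (1 : ℤ) x).filter (fun n => n ≠ a), g (n - a).natAbs ≤
      2 * ∑ t ∈ Icc 1 (5 * x), g t := by
  classical
  have ha' := abs_le.1 ha
  have h0 : (Icc (1 : ℤ) x).filter (fun n => n ≠ a) =
      (Icc (1 : ℤ) x).filter (fun n => a < n) ∪ (Icc (1 : ℤ) x).filter (fun n => n < a) := by
    ext n
    simp only [mem_filter, mem_union]
    constructor
    · rintro ⟨h1, h2⟩
      rcases lt_or_gt_of_ne h2 with h | h
      · exact Or.inr ⟨h1, h⟩
      · exact Or.inl ⟨h1, h⟩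
    · rintro (⟨h1, h2⟩ | ⟨h1, h2⟩)
      · exact ⟨h1, by omega⟩
      · exact ⟨h1, by omega⟩
  have hdis : Disjoint ((Icc (1 : ℤ) x).filter (fun n => a < n))
      ((Icc (1 : ℤ) x).filter (fun n => n < a)) := by
    rw [disjoint_left]
    intro n h1 h2
    rw [mem_filter] at h1 h2
    omega
  rw [h0, sum_union hdis, two_mul]
  apply add_le_add
  · have hinj : Set.InjOn (fun n : ℤ => (n - a).natAbs)
        (((Icc (1 : ℤ) x).filter (fun n => a < n) : Finset ℤ) : Set ℤ) := by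
      intro n hn n' hn' h
      simp only [coe_filter, mem_Icc, Set.mem_setOf_eq] at hn hn'
      simp only at h
      omega
    rw [← sum_image (f := g) hinj]
    refine sum_le_sum_of_subset_of_nonneg ?_ (fun e _ _ => hg e)
    intro e he
    rw [mem_image] at he
    obtain ⟨n, hn, rfl⟩ := he
    rw [mem_filter, mem_Icc] at hn
    rw [mem_Icc]
    omega
  · have hinj : Set.InjOn (fun n : ℤ => (n - a).natAbs)
        (((Icc (1 : ℤ) x).filter (fun n => n < a) : Finset ℤ) : Set ℤ) := by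
      intro n hn n' hn' h
      simp only [coe_filter, mem_Icc, Set.mem_setOf_eq] at hn hn'
      simp only at h
      omega
    rw [← sum_image (f := g) hinj]
    refine sum_le_sum_of_subset_of_nonneg ?_ (fun e _ _ => hg e)
    intro e he
    rw [mem_image] at he
    obtain ⟨n, hn, rfl⟩ := he
    rw [mem_filter, mem_Icc] at hn
    rw [mem_Icc]
    omega

theorem shift_tau {x : ℕ} (hL : 2 ≤ Real.log x) {a : ℤ} (ha : |a| ≤ 4 * x) :
    ∑ n ∈ (Icc (1 : ℤ) x).filter (fun n => n ≠ a), (((n - a).natAbs.divisors.card : ℕ) : ℝ) ^ 2 ≤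
      x * Real.log x ^ 14 := by
  have hx0 : (0 : ℝ) < x := by
    rcases Nat.eq_zero_or_pos x with rfl | h
    · simp at hL; linarith
    · exact_mod_cast h
  refine (shift_sum (fun t => (t.divisors.card : ℝ) ^ 2) (fun t => by positivity) ha).trans ?_
  have h1 := Pool.Agent.TH935.LD.tau_pow_sum 2 (5 * x)
  have h2 : Real.log ((5 * x : ℕ) : ℝ) = Real.log 5 + Real.log x := by
    push_cast
    rw [Real.log_mul (by norm_num) hx0.ne']
  have h3 : Real.log 5 ≤ 2 := by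
    rw [Real.log_le_iff_le_exp (by norm_num)]
    have h4 := Real.exp_one_gt_d9
    have h5 : Real.exp 2 = Real.exp 1 * Real.exp 1 := by rw [← Real.exp_add]; norm_num
    rw [h5]
    nlinarith
  have h30 : 0 ≤ Real.log 5 := Real.log_nonneg (by norm_num)
  rw [h2] at h1
  obtain ⟨L, hLd⟩ : ∃ L, L = Real.log x := ⟨_, rfl⟩
  rw [← hLd] at hL h1 ⊢
  have h4 : (1 + (Real.log 5 + L)) ^ 4 ≤ (3 * L) ^ 4 := by
    apply pow_le_pow_left₀ (by positivity)
    linarith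
  norm_num at h1
  have h5 : (1024 : ℝ) ≤ L ^ 10 := by
    calc (1024 : ℝ) = 2 ^ 10 := by norm_num
      _ ≤ L ^ 10 := pow_le_pow_left₀ (by norm_num) hL 10
  have hL4 : 0 < L ^ 4 := by positivity
  calc 2 * ∑ t ∈ Icc 1 (5 * x), (t.divisors.card : ℝ) ^ 2
      ≤ 2 * (5 * x * (3 * L) ^ 4) := by
        have := mul_le_mul_of_nonneg_left h4 (show (0 : ℝ) ≤ 5 * x by positivity)
        linarith
    _ = x * (810 * L ^ 4) := by ring
    _ ≤ x * (L ^ 10 * L ^ 4) := by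
        apply mul_le_mul_of_nonneg_left _ hx0.le
        apply mul_le_mul_of_nonneg_right _ hL4.le
        linarith
    _ = x * L ^ 14 := by ring

/-- twisted moments off `a` -/
theorem tw_le {E1 x Q : ℕ} (hx : Y0 E1 ≤ Real.log x) (hQ : (Q : ℝ) ≤ Real.log x ^ E1) (m : ℕ)
    {a : ℤ} (ha : |a| ≤ 4 * x) :
    ∑ n ∈ (Icc (1 : ℤ) x).filter (fun n => n ≠ a),
      ‖ffz x Q n‖ ^ m * (((n - a).natAbs.divisors.card : ℕ) : ℝ) ≤
      x * Real.log x ^ (2 * m + 2 * 2 ^ (2 * m) + 15) := by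
  have hy2 : 2 ≤ Real.log x := (le_max_left _ _).trans hx
  have h1 : ∀ n ∈ (Icc (1 : ℤ) x).filter (fun n => n ≠ a),
      ‖ffz x Q n‖ ^ m * (((n - a).natAbs.divisors.card : ℕ) : ℝ) ≤
      ‖ffz x Q n‖ ^ (2 * m) + (((n - a).natAbs.divisors.card : ℕ) : ℝ) ^ 2 := by
    intro n _
    rw [mul_comm 2 m, pow_mul]
    nlinarith [sq_nonneg (‖ffz x Q n‖ ^ m - (((n - a).natAbs.divisors.card : ℕ) : ℝ)),
      sq_nonneg (‖ffz x Q n‖ ^ m), sq_nonneg ((((n - a).natAbs.divisors.card : ℕ) : ℝ))]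
  refine (sum_le_sum h1).trans ?_
  rw [sum_add_distrib]
  have h2 : ∑ n ∈ (Icc (1 : ℤ) x).filter (fun n => n ≠ a), ‖ffz x Q n‖ ^ (2 * m) ≤
      mom (ffz x Q) x (2 * m) :=
    sum_le_sum_of_subset_of_nonneg (filter_subset _ _) (fun _ _ _ => by positivity)
  have h3 := mom_le hx hQ (2 * m)
  have h4 := shift_tau hy2 ha
  obtain ⟨L, hLd⟩ : ∃ L, L = Real.log x := ⟨_, rfl⟩
  rw [← hLd] at hy2 h3 h4 ⊢
  have h5 : L ^ (2 * m + 2 * 2 ^ (2 * m)) ≤ L ^ (2 * m + 2 * 2 ^ (2 * m) + 14) :=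
    pow_le_pow_right₀ (by linarith) (by omega)
  have h6 : L ^ 14 ≤ L ^ (2 * m + 2 * 2 ^ (2 * m) + 14) := pow_le_pow_right₀ (by linarith) (by omega)
  have h7 : L ^ (2 * m + 2 * 2 ^ (2 * m) + 15) = L ^ (2 * m + 2 * 2 ^ (2 * m) + 14) * L := pow_succ _ _
  have h8 : 0 ≤ L ^ (2 * m + 2 * 2 ^ (2 * m) + 14) := by positivity
  have hx0 : (0 : ℝ) ≤ x := Nat.cast_nonneg _
  have h9 : (x : ℝ) * L ^ (2 * m + 2 * 2 ^ (2 * m)) ≤ x * L ^ (2 * m + 2 * 2 ^ (2 * m) + 14) :=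
    mul_le_mul_of_nonneg_left h5 hx0
  have h10 : (x : ℝ) * L ^ 14 ≤ x * L ^ (2 * m + 2 * 2 ^ (2 * m) + 14) :=
    mul_le_mul_of_nonneg_left h6 hx0
  have h11 : (x : ℝ) * (L ^ (2 * m + 2 * 2 ^ (2 * m) + 14) * 2) ≤
      x * (L ^ (2 * m + 2 * 2 ^ (2 * m) + 14) * L) :=
    mul_le_mul_of_nonneg_left (mul_le_mul_of_nonneg_left hy2 h8) hx0
  rw [h7]
  linarith

end Pool.Agent.Y884.SQ
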